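import Pool.Agent.L5helper5.MESProof

/-!
# Slender unramified motivic multiple mixed values: the classification of Q1 fails
-/

set_option autoImplicit false

namespace Pool.Agent.Results.MP_e8750f_nt.SlenderCounterexample

open Pool.Agent.L5helper5.MES

/-- The answer to Q1 is negative: `M^m(2,3,1,2,1,2; 1,1,1,1,-1,1)`, of depth six and weight
eleven, is unramified.

(As a check outside the proof, the real value satisfies numerically, to 250 digits,
`3584000 M = -6986000 ζ(3)²ζ(5) - 2343600 ζ(3)ζ(3,5) + 3402000 ζ(3,3,5) + 1176000 ζ(3)³ζ(2)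
+ 1251456 ζ(3)ζ(2)⁴ - 644400 ζ(5)ζ(2)³ + 2082150 ζ(7)ζ(2)² + 175574000 ζ(9)ζ(2)
- 295750875 ζ(11)`.) -/
theorem result (𝓜 : MotivicEulerSums) :
    𝓜.mmv [2, 3, 1, 2, 1, 2] [1, 1, 1, 1, -1, 1] ∈ 𝓜.H1 ∧ ¬ 𝓜.Question := by
  have h : 𝓜.mmv [2, 3, 1, 2, 1, 2] [1, 1, 1, 1, -1, 1] ∈ 𝓜.H1 := by
    rw [MotivicEulerSums.mmv_eq]
    exact MotivicEulerSums.ur11_mem (𝓜.J_mem [.A, .O, .A, .O, .O, .A, .A, .O, .B, .B, .O])
      MotivicEulerSums.ur_A0A00AA0BB0
  refine ⟨h, fun hQ => ?_⟩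
  rcases hQ [2, 3, 1, 2, 1, 2] [1, 1, 1, 1, -1, 1] (by decide) (by decide) (by decide)
    (by simp [Admissible]) (by simp [Slender]) h with h1 | h1 | ⟨h1, -⟩
  · exact absurd (h1 (-1) (by decide)) (by decide)
  · exact absurd (h1 1 (by decide)) (by decide)
  · exact absurd (h1 0 (by decide)) (by decide)

end Pool.Agent.Results.MP_e8750f_nt.SlenderCounterexample
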